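import Pool.Agent.Helper77.SO.St

set_option autoImplicit false

namespace Pool.Agent.Helper21.SO.STM

open Equiv Equiv.Perm Pool.Agent.Helper35.PM Pool.Agent.Helper77.HY Pool.Agent.Helper77.OF4
  Pool.Agent.Helper77.SO

theorem pow_minPer {D : Type} (π : Perm D) (a : D) :
    (π ^ Function.minimalPeriod π a) a = a := by
  have h := Function.isPeriodicPt_minimalPeriod (⇑π) a
  have h2 : (⇑π)^[Function.minimalPeriod π a] a = a := h
  rwa [← Equiv.Perm.coe_pow] at h2

theorem minPer_pow {D : Type} [Finite D] (π : Perm D) (a : D) (n : ℕ) :
    Function.minimalPeriod π ((π ^ n) a) = Function.minimalPeriod π a := by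
  have hp : a ∈ Function.periodicPts (⇑π) := by
    have := Function.Injective.mem_periodicPts (f := ⇑π) π.injective a
    exact this
  have := Function.minimalPeriod_apply_iterate hp n
  rwa [← Equiv.Perm.coe_pow] at this

theorem main (hTr : StTr) : StStm := by
  classical
  intro D U _ r' ι τ Z hZ hac hAF m k a ha hk0 hk hkm hreach
  have hp : a ∈ Function.periodicPts (⇑r') :=
    Function.Injective.mem_periodicPts (f := ⇑r') r'.injective a
  have hN : 0 < Function.minimalPeriod r' a := Function.minimalPeriod_pos_of_mem_periodicPts hp
  have hm : 0 < m := by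
    rcases Nat.eq_zero_or_pos m with h | h
    · subst h
      rw [hk0] at hkm
      omega
    · exact h
  have hmono : ∀ j ≤ m, ∀ i ≤ j, k i ≤ k j := by
    intro j
    induction j with
    | zero =>
      intro _ i hi
      have : i = 0 := by omega
      rw [this]
    | succ j ih =>
      intro hj i hi
      rcases Nat.lt_or_ge i (j + 1) with h | h
      · have h1 := ih (by omega) i (by omega)
        have h2 := hk j (by omega)
        omega
      · have : i = j + 1 := by omega
        rw [this]
  set v : ℕ → U := fun i => τ (ι ((r' ^ k i) a)) with hv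
  have hvm : v m = v 0 := by
    simp only [hv]
    rw [hkm, hk0, pow_minPer]
    simp
  have hv0 : v 0 = τ (ι a) := by
    simp only [hv]
    rw [hk0]
    simp
  have hreach0 : ∀ i < m, (FG ι τ Z).Reachable (v 0) (v i) := by
    intro i hi
    rw [hv0]
    exact hreach i hi
  have hreachm : ∀ i ≤ m, (FG ι τ Z).Reachable (v 0) (v i) := by
    intro i hi
    rcases Nat.lt_or_ge i m with h | h
    · exact hreach0 i h
    · have : i = m := by omega
      rw [this, hvm]
  have htr := hTr U (FG ι τ Z) hac m v hm hvm hreach0
  have hτ : ∀ n : ℕ, τ ((r' ^ n) a) ∈ Z := by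
    intro n
    induction n with
    | zero => simpa using ha
    | succ n ih =>
      rw [pow_succ', Perm.mul_apply]
      exact hZ _ ih
  have hXfin : {x | ∃ i < m, v i = x}.Finite := by
    have : {x | ∃ i < m, v i = x} = v '' (Finset.range m : Set ℕ) := by
      ext x
      simp
    rw [this]
    exact (Finset.finite_toSet _).image _
  -- the map i ↦ v (i + 1)
  have hcard : {i | i < m ∧ v i ≠ v (i + 1)}.ncard ≤ {x | ∃ i < m, v i = x}.ncard := by
    apply Set.ncard_le_ncard_of_injOn (fun i => v (i + 1)) _ _ hXfin
    · rintro i ⟨hi, -⟩
      rcases Nat.lt_or_ge (i + 1) m with h | h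
      · exact ⟨i + 1, h, rfl⟩
      · have h1 : i + 1 = m := by omega
        refine ⟨0, hm, ?_⟩
        show v 0 = v (i + 1)
        rw [h1, hvm]
    · have key : ∀ i i' : ℕ, i < m → i' < m → v i ≠ v (i + 1) → v i' ≠ v (i' + 1) →
          v (i + 1) = v (i' + 1) → i < i' → False := by
        intro i i' hi hi' h1 h2 h3 hlt
        have hne : i + 1 ≠ i' := by
          intro h
          rw [← h] at h2 h3
          exact h2 h3
        have hlt' : i + 1 < i' := by omega
        have hk1 : k (i + 1) < k i' := by
          have h4 := hmono i' (by omega) (i + 2) (by omega)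
          have h5 := hk (i + 1) (by omega)
          have h6 : i + 1 + 1 = i + 2 := by omega
          rw [h6] at h5
          omega
        have hk2 : k i' < k (i' + 1) := hk i' hi'
        have hk3 : k i < k (i + 1) := hk i hi
        have hNle : k (i' + 1) ≤ Function.minimalPeriod r' a := by
          rw [← hkm]
          exact hmono m le_rfl (i' + 1) (by omega)
        have hk4 : k (i' + 1) < k i + Function.minimalPeriod r' a := by
          rcases Nat.eq_zero_or_pos i with h0 | h0
          · subst h0
            rcases Nat.lt_or_ge (i' + 1) m with h | h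
            · have h4 := hk (i' + 1) h
              have h5 := hmono m le_rfl (i' + 1 + 1) (by omega)
              omega
            · exfalso
              have h4 : i' + 1 = m := by omega
              rw [h4, hvm] at h3
              exact h1 h3.symm
          · have h4 := hmono i (by omega) 1 (by omega)
            have h5 := hk 0 hm
            simp only [zero_add] at h5
            omega
        have hper : Function.minimalPeriod r' ((r' ^ k (i + 1)) a) = Function.minimalPeriod r' a :=
          minPer_pow r' a _
        have hmul : ∀ x y : ℕ, (r' ^ x) ((r' ^ y) a) = (r' ^ (x + y)) a := by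
          intro x y
          rw [pow_add, Perm.mul_apply]
        have hAlt : Alt r' ((r' ^ k (i + 1)) a) ((r' ^ k i') a) ((r' ^ k (i' + 1)) a)
            ((r' ^ k i) a) := by
          refine ⟨k i' - k (i + 1), k (i' + 1) - k (i + 1),
            k i + Function.minimalPeriod r' a - k (i + 1), by omega, by omega, by omega, ?_, ?_, ?_, ?_⟩
          · rw [hper]
            omega
          · rw [hmul]
            congr 2
            omega
          · rw [hmul]
            congr 2
            omega
          · rw [hmul]
            have : k i + Function.minimalPeriod r' a - k (i + 1) + k (i + 1)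
                = k i + Function.minimalPeriod r' a := by omega
            rw [this, ← hmul, pow_minPer]
        have hfin := hAF _ _ _ _ (hτ (k (i + 1))) hAlt h3.symm
          (by
            intro h
            exact h2 ((show v i' = v (i + 1) from h).trans h3))
          ((hreachm (i + 1) (by omega)).symm.trans (hreachm i' (by omega)))
          ((hreachm (i + 1) (by omega)).symm.trans (hreachm i (by omega)))
        exact h1 hfin
      rintro i ⟨hi, h1⟩ i' ⟨hi', h2⟩ h3
      rcases lt_trichotomy i i' with h | h | h
      · exact (key i i' hi hi' h1 h2 h3 h).elim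
      · exact h
      · exact (key i' i hi' hi h2 h1 h3.symm h).elim
  have hcard' : 2 * {i | i < m ∧ τ (ι ((r' ^ k i) a)) ≠ τ (ι ((r' ^ k (i + 1)) a))}.ncard ≤
      2 * {x | ∃ i < m, v i = x}.ncard := Nat.mul_le_mul_left 2 hcard
  have htr' : 2 * {x | ∃ i < m, v i = x}.ncard ≤ (∑ i ∈ Finset.range m,
      (FG ι τ Z).dist (τ (ι ((r' ^ k i) a))) (τ (ι ((r' ^ k (i + 1)) a)))) + 2 := htr
  omega

end Pool.Agent.Helper21.SO.STM
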